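import Pool.Agent.helper99.IT.Spec

set_option autoImplicit false

namespace Pool.Agent.IT

open Finset Pool.Agent.AT

theorem GEN_gamma (s : Fin 4 → ℕ) (α : Fin 4 → ℤ) (h : ∀ i j : Fin 4, i ≠ j → (s j : ℤ) * α i ≠ s i * α j) :
    ∃ (G : ℕ) (g : Fin 4 → Fin 4 → ℤ), 0 < G ∧ ∀ i j : Fin 4, i ≠ j → g i j * ((s j : ℤ) * α i - s i * α j) = G := by
  refine ⟨∏ x : Fin 4 × Fin 4, (if x.1 = x.2 then 1 else ((s x.2 : ℤ) * α x.1 - s x.1 * α x.2).natAbs),
    fun i j => ((∏ x : Fin 4 × Fin 4, (if x.1 = x.2 then 1 else ((s x.2 : ℤ) * α x.1 - s x.1 * α x.2).natAbs) : ℕ) : ℤ) /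
      ((s j : ℤ) * α i - s i * α j), ?_, ?_⟩
  · refine Finset.prod_pos fun x _ => ?_
    split_ifs with hx
    · exact one_pos
    · exact Int.natAbs_pos.2 (sub_ne_zero.2 (h _ _ hx))
  · intro i j hij
    refine Int.ediv_mul_cancel (Int.dvd_natCast.2 ?_)
    have h2 := Finset.dvd_prod_of_mem (fun x : Fin 4 × Fin 4 => (if x.1 = x.2 then 1 else ((s x.2 : ℤ) * α x.1 - s x.1 * α x.2).natAbs))
      (Finset.mem_univ (i, j))
    simp only [hij, if_false] at h2
    exact h2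

theorem GEN_pair (s : Fin 4 → ℕ) (α β : Fin 4 → ℤ) (P G : ℕ) (g : Fin 4 → Fin 4 → ℤ)
    (hg : ∀ i j : Fin 4, i ≠ j → g i j * ((s j : ℤ) * α i - s i * α j) = G) (c : ℤ) (x : Fin 4 → ℤ)
    (hx : ∀ i j : Fin 4, i < j → BadC s α β (c + P * (g i j * ((s j : ℤ) * x i - s i * x j)))) :
    ∀ i j : Fin 4, i ≠ j → ¬ Pair (s i, α i * c + β i + P * G * x i) (s j, α j * c + β j + P * G * x j) := by
  intro i j hij
  rcases lt_or_gt_of_ne hij with h | h
  · have hb := (hx i j h).2 i j hij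
    have hgg := hg i j hij
    unfold Pair at hb ⊢
    simp only at hb ⊢
    have e : (s j : ℤ) * (α i * c + β i + P * G * x i) - s i * (α j * c + β j + P * G * x j) =
        (s j : ℤ) * (α i * (c + P * (g i j * ((s j : ℤ) * x i - s i * x j))) + β i) -
          s i * (α j * (c + P * (g i j * ((s j : ℤ) * x i - s i * x j))) + β j) := by
      linear_combination (-(P : ℤ) * ((s j : ℤ) * x i - s i * x j)) * hgg
    rw [e]
    exact hb
  · have hb := (hx j i h).2 i j hij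
    have hgg := hg j i hij.symm
    unfold Pair at hb ⊢
    simp only at hb ⊢
    have e : (s j : ℤ) * (α i * c + β i + P * G * x i) - s i * (α j * c + β j + P * G * x j) =
        (s j : ℤ) * (α i * (c + P * (g j i * ((s i : ℤ) * x j - s j * x i))) + β i) -
          s i * (α j * (c + P * (g j i * ((s i : ℤ) * x j - s j * x i))) + β j) := by
      linear_combination (-(P : ℤ) * ((s j : ℤ) * x i - s i * x j)) * hgg
    rw [e]
    exact hb

theorem GEN_large (C' C δ' δ₀ : ℝ) (hδ' : 0 < δ') (hδ₀ : 0 < δ₀) : ∃ L₀ : ℕ, ∀ L : ℕ, L₀ ≤ L → 81 * C' * C ^ 4 < δ' * (L : ℝ) ^ δ₀ := by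
  have h1 := ((tendsto_rpow_atTop hδ₀).comp (tendsto_natCast_atTop_atTop (R := ℝ))).eventually_gt_atTop (81 * C' * C ^ 4 / δ')
  obtain ⟨L₀, h2⟩ := Filter.eventually_atTop.1 h1
  refine ⟨L₀, fun L hL => ?_⟩
  have h3 := h2 L hL
  simp only [Function.comp] at h3
  rw [div_lt_iff₀ hδ'] at h3
  linarith

theorem GEN_num (C' C δ' δ₀ L K : ℝ) (hC' : 0 < C') (hC : 1 ≤ C) (hδ₀ : 0 < δ₀) (hL : 1 ≤ L) (hK1 : L ≤ K) (hK2 : K ≤ 3 * C * L)
    (h1 : 81 * C' * C ^ 4 < δ' * L ^ δ₀) (h2 : δ' * L ^ 4 ≤ C' * K ^ 4 * K ^ (-δ₀)) : False := by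
  have hL0 : 0 < L := by linarith
  have hK0 : 0 < K := by linarith
  have e1 : K ^ (-δ₀) ≤ L ^ (-δ₀) := (Real.rpow_le_rpow_iff_of_neg hK0 hL0 (by linarith)).2 hK1
  have e2 : K ^ 4 ≤ (3 * C * L) ^ 4 := pow_le_pow_left₀ hK0.le hK2 4
  have hp : 0 < L ^ (-δ₀) := Real.rpow_pos_of_pos hL0 _
  have e3 : C' * K ^ 4 * K ^ (-δ₀) ≤ C' * (3 * C * L) ^ 4 * L ^ (-δ₀) :=
    mul_le_mul (mul_le_mul_of_nonneg_left e2 hC'.le) e1 (Real.rpow_nonneg hK0.le _) (by positivity)
  have e4 : L ^ δ₀ * L ^ (-δ₀) = 1 := by rw [← Real.rpow_add hL0, add_neg_cancel, Real.rpow_zero]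
  have e5 : 81 * C' * C ^ 4 * (L ^ (-δ₀) * L ^ 4) < δ' * L ^ δ₀ * (L ^ (-δ₀) * L ^ 4) :=
    mul_lt_mul_of_pos_right h1 (by positivity)
  have e6 : δ' * L ^ δ₀ * (L ^ (-δ₀) * L ^ 4) = δ' * L ^ 4 * (L ^ δ₀ * L ^ (-δ₀)) := by ring
  rw [e4, mul_one] at e6
  have e7 : C' * (3 * C * L) ^ 4 * L ^ (-δ₀) = 81 * C' * C ^ 4 * (L ^ (-δ₀) * L ^ 4) := by ring
  linarith

open Classical in
theorem GEN_split (B : ℤ → Prop) (Q M : ℕ) (hQ : 0 < Q) (u : ℤ) (θ : ℝ)
    (h : ∀ r < Q, (#((range (M / Q + 1)).filter fun y : ℕ => B (u + 1 + r + (Q : ℤ) * (y : ℤ))) : ℝ) ≤ θ) :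
    (#{c ∈ Ioc u (u + M) | B c} : ℝ) ≤ Q * θ := by
  have hsub : {c ∈ Ioc u (u + M) | B c} ⊆ (range Q).biUnion fun r =>
      ((range (M / Q + 1)).filter fun y : ℕ => B (u + 1 + r + (Q : ℤ) * (y : ℤ))).image fun y : ℕ => u + 1 + r + (Q : ℤ) * (y : ℤ) := by
    intro c hc
    rw [mem_filter, mem_Ioc] at hc
    obtain ⟨⟨h1, h2⟩, hB⟩ := hc
    obtain ⟨n, hn⟩ := Int.eq_ofNat_of_zero_le (show 0 ≤ c - u - 1 by omega)
    have hdm := Nat.div_add_mod n Q
    have hdm' : (Q : ℤ) * ((n / Q : ℕ) : ℤ) + ((n % Q : ℕ) : ℤ) = n := by exact_mod_cast hdm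
    have hc' : u + 1 + ((n % Q : ℕ) : ℤ) + (Q : ℤ) * ((n / Q : ℕ) : ℤ) = c := by omega
    rw [mem_biUnion]
    refine ⟨n % Q, mem_range.2 (Nat.mod_lt _ hQ), ?_⟩
    rw [mem_image]
    refine ⟨n / Q, mem_filter.2 ⟨mem_range.2 ?_, ?_⟩, hc'⟩
    · have h3 : n ≤ M := by omega
      exact Nat.lt_succ_of_le (Nat.div_le_div_right h3)
    · rw [hc']; exact hB
  calc (#{c ∈ Ioc u (u + M) | B c} : ℝ) ≤ (∑ r ∈ range Q, #((range (M / Q + 1)).filter fun y : ℕ => B (u + 1 + r + (Q : ℤ) * (y : ℤ))) : ℕ) := by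
        refine Nat.cast_le.2 ((card_le_card hsub).trans (card_biUnion_le.trans (sum_le_sum fun r _ => card_image_le)))
    _ = ∑ r ∈ range Q, (#((range (M / Q + 1)).filter fun y : ℕ => B (u + 1 + r + (Q : ℤ) * (y : ℤ))) : ℝ) := by rw [Nat.cast_sum]
    _ ≤ ∑ r ∈ range Q, θ := sum_le_sum fun r hr => h r (mem_range.1 hr)
    _ = Q * θ := by rw [sum_const, card_range, nsmul_eq_mul]

open Classical in
theorem GEN (hGCT : GCT_stmt) (hADF : ADF_stmt) : GEN_stmt := by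
  rintro ⟨C', δ₀, hC', hδ₀, _, hQP⟩ s α β hs hα ε hε
  obtain ⟨G, g, hG, hg⟩ := GEN_gamma s α hα
  obtain ⟨P, hP⟩ : ∃ P : ℕ, P = 6 * ∏ i, s i := ⟨_, rfl⟩
  have hP0 : 0 < P := by
    rw [hP]
    exact Nat.mul_pos (by norm_num) (Finset.prod_pos fun i _ => hs i)
  obtain ⟨Q, hQd⟩ : ∃ Q : ℕ, Q = P * G := ⟨_, rfl⟩
  have hQ0 : 0 < Q := by rw [hQd]; exact Nat.mul_pos hP0 hG
  obtain ⟨δ', C, hδ', hC, hGC⟩ := hGCT s α g G hs (by exact_mod_cast hG.ne') (fun i j hij => hg i j hij.ne) (ε / 2) (by positivity)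
  obtain ⟨L₀, hL₀⟩ := GEN_large C' C δ' δ₀ hδ' hδ₀
  -- the main claim
  have key : ∀ L : ℕ, 1 ≤ L → L₀ ≤ L → ∀ c : ℤ, (#((range L).filter fun y : ℕ => BadC s α β (c + (Q : ℤ) * (y : ℤ))) : ℝ) ≤ ε / 2 * L := by
    intro L hL1 hL c
    by_contra hcon
    push Not at hcon
    have hLr : (1 : ℝ) ≤ L := by exact_mod_cast hL1
    have hpos : 0 < ε / 2 * L := by positivity
    have hne : 0 < #((range L).filter fun y : ℕ => BadC s α β (c + (Q : ℤ) * (y : ℤ))) := by
      have : (0 : ℝ) < #((range L).filter fun y : ℕ => BadC s α β (c + (Q : ℤ) * (y : ℤ))) := hpos.trans hcon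
      exact_mod_cast this
    obtain ⟨y₀, hy₀⟩ := card_pos.1 hne
    have hadm := (mem_filter.1 hy₀).2.1
    have hB : ∀ y : ℕ, c + P * (((G : ℕ) : ℤ) * (y : ℤ)) = c + (Q : ℤ) * (y : ℤ) := by
      intro y
      rw [hQd]
      push_cast
      ring
    have h1 := hGC L (fun t => BadC s α β (c + P * t)) hL1 (by
      refine hcon.le.trans (Nat.cast_le.2 (card_le_card_of_injOn (fun y : ℕ => (y : ℤ)) ?_ ?_))
      · intro y hy
        rw [mem_coe, mem_filter] at hy ⊢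
        refine ⟨?_, ?_⟩
        · simp only [Finset.bind_def, Finset.mem_sup]
          exact ⟨y, hy.1, mem_singleton_self _⟩
        · change BadC s α β (c + P * (((G : ℕ) : ℤ) * (y : ℤ)))
          rw [hB]
          exact hy.2
      · intro a _ b _ hab
        exact Nat.cast_injective hab)
    -- the families of forms
    obtain ⟨fm, hfm⟩ : ∃ fm : Fin 4 → ℤ → ℕ × ℤ, ∀ i x, fm i x = (s i, α i * c + β i + P * G * x) := ⟨fun i x => (s i, α i * c + β i + P * G * x), fun _ _ => rfl⟩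
    have hinj : ∀ i, Function.Injective (fm i) := by
      intro i x y hxy
      rw [hfm, hfm] at hxy
      have h2 := (Prod.mk.inj hxy).2
      have h3 : (P : ℤ) * G * x = P * G * y := by linarith
      have h4 : (P : ℤ) * G ≠ 0 := by
        have : (P : ℤ) * G = ((P * G : ℕ) : ℤ) := by push_cast; ring
        rw [this, ← hQd]
        exact_mod_cast hQ0.ne'
      exact mul_left_cancel₀ h4 h3
    have hcard : ∀ i, #((Icc (-((C * L : ℕ) : ℤ)) ((C * L : ℕ) : ℤ)).image (fm i)) = 2 * (C * L) + 1 := by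
      intro i
      rw [card_image_of_injective _ (hinj i), Int.card_Icc]
      omega
    have h2 := hQP (fun i => (Icc (-((C * L : ℕ) : ℤ)) ((C * L : ℕ) : ℤ)).image (fm i)) (2 * (C * L) + 1) (by omega) (fun i => (hcard i).ge)
      (fun i f hf => by
        obtain ⟨x, _, rfl⟩ := mem_image.1 hf
        rw [hfm]
        exact hs i)
    have h3 : #{x ∈ Fintype.piFinset (fun _ : Fin 4 => Icc (-((C * L : ℕ) : ℤ)) ((C * L : ℕ) : ℤ)) |
        ∀ i j : Fin 4, i < j → BadC s α β (c + P * (g i j * ((s j : ℤ) * x i - s i * x j)))} ≤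
        #{f ∈ Fintype.piFinset (fun i => (Icc (-((C * L : ℕ) : ℤ)) ((C * L : ℕ) : ℤ)).image (fm i)) | Adm f ∧ ∀ i j, i ≠ j → ¬ Pair (f i) (f j)} := by
      refine card_le_card_of_injOn (fun x i => fm i (x i)) ?_ ?_
      · intro x hx
        rw [mem_coe, mem_filter] at hx
        obtain ⟨hx1, hx2⟩ := hx
        rw [mem_coe, mem_filter]
        refine ⟨?_, ?_, ?_⟩
        · rw [Fintype.mem_piFinset] at hx1 ⊢
          exact fun i => mem_image_of_mem _ (hx1 i)
        · have h4 := hADF s (fun i => α i * c + β i + P * G * x i) (fun i => α i * (c + (Q : ℤ) * (y₀ : ℤ)) + β i) Q (by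
            intro l hl hlQ
            have hlP : ¬ l ∣ P := fun h => hlQ (by rw [hQd]; exact h.mul_right _)
            refine ⟨?_, fun i h => hlP ?_⟩
            · by_contra hlt
              push Not at hlt
              have hl6 : l ∣ 6 := by
                have := hl.two_le
                interval_cases l
                · norm_num
                · norm_num
                · exact absurd hl (by norm_num)
              exact hlP (by rw [hP]; exact hl6.mul_right _)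
            · rw [hP]
              exact (h.trans (dvd_prod_of_mem s (mem_univ i))).mul_left _) (by
            intro i
            refine ⟨x i - α i * y₀, ?_⟩
            rw [hQd]
            push_cast
            ring) hadm
          have h5 : (fun i => fm i (x i)) = fun i => (s i, α i * c + β i + P * G * x i) := by
            funext i
            exact hfm i (x i)
          change Adm (fun i => fm i (x i))
          rw [h5]
          exact h4
        · intro i j hij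
          change ¬ Pair (fm i (x i)) (fm j (x j))
          rw [hfm, hfm]
          exact GEN_pair s α β P G g hg c x hx2 i j hij
      · intro x _ y _ hxy
        funext i
        exact hinj i (congrFun hxy i)
    have h4 : δ' * (L : ℝ) ^ 4 ≤ C' * (((2 * (C * L) + 1 : ℕ) : ℝ)) ^ 4 * (((2 * (C * L) + 1 : ℕ) : ℝ)) ^ (-δ₀) := by
      refine h1.trans ((Nat.cast_le.2 h3).trans (h2.trans (le_of_eq ?_)))
      rw [Finset.prod_congr rfl (fun i _ => by rw [hcard i]), Finset.prod_const, Finset.card_univ, Fintype.card_fin]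
    have hCr : (1 : ℝ) ≤ C := by exact_mod_cast hC
    have hCL : (1 : ℝ) ≤ C * L := by nlinarith
    exact GEN_num C' C δ' δ₀ L _ hC' hCr hδ₀ hLr (by push_cast; nlinarith) (by push_cast; nlinarith) (hL₀ L hL) h4
  refine ⟨max Q (Q * L₀), fun M hM u => ?_⟩
  have hMQ : Q ≤ M := (le_max_left _ _).trans hM
  have hML : Q * L₀ ≤ M := (le_max_right _ _).trans hM
  have hL : L₀ ≤ M / Q + 1 := by
    have : L₀ ≤ M / Q := (Nat.le_div_iff_mul_le hQ0).2 (by rw [mul_comm]; exact hML)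
    omega
  have h1 := GEN_split (BadC s α β) Q M hQ0 u (ε / 2 * ((M / Q + 1 : ℕ) : ℝ)) (fun r _ => key _ (Nat.le_add_left 1 _) hL _)
  refine h1.trans ?_
  have hQr : (0 : ℝ) < Q := by exact_mod_cast hQ0
  have h2 : (Q : ℝ) * ((M / Q + 1 : ℕ) : ℝ) ≤ M + Q := by
    have h3 : Q * (M / Q) ≤ M := Nat.mul_div_le M Q
    have h4 : (Q : ℝ) * ((M / Q : ℕ) : ℝ) ≤ M := by exact_mod_cast h3
    push_cast at h4 ⊢
    linarith
  have h5 : (Q : ℝ) ≤ M := by exact_mod_cast hMQ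
  calc (Q : ℝ) * (ε / 2 * ((M / Q + 1 : ℕ) : ℝ)) = ε / 2 * (Q * ((M / Q + 1 : ℕ) : ℝ)) := by ring
    _ ≤ ε / 2 * (M + Q) := mul_le_mul_of_nonneg_left h2 (by positivity)
    _ ≤ ε / 2 * (M + M) := mul_le_mul_of_nonneg_left (by linarith) (by positivity)
    _ = ε * M := by ring

end Pool.Agent.IT
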